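import Pool.Agent.Lib_helper59.MF.Defs
import Pool.Agent.Lib_helper98.GA.Defs

/-!
# XS: the exact strength of the Friedlander-Goldston asymptotic in mean. Definitions

The mean value of the variance of the primes in progressions and the zeros of L-functions.
-/

set_option autoImplicit false

namespace Pool.Agent.XS

open Finset Complex MeasureTheory Pool.Agent.Var35 Pool.Agent.Var73 Pool.Agent.HC Pool.Agent.MF
open scoped ArithmeticFunction ArithmeticFunction.Moebius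

/-! ## The four properties -/

/-- the asymptotic formula with the second order term, in mean over the moduli `Q ≤ Y`, for
`X^(κ+ε) ≤ Y = o(X)` -/
def MeanAsym (κ : ℝ) : Prop :=
  ∀ ε : ℝ, 0 < ε → ∀ η : ℝ, 0 < η → ∃ C : ℝ, ∀ (X : ℝ) (Y : ℕ), C ≤ X → X ^ (κ + ε) ≤ (Y : ℝ) →
    C * (Y : ℝ) ≤ X →
    |∑ Q ∈ Icc 1 Y, (GX X Q - X * (Real.log Q - CQ Q))| ≤ η * X * Y

/-- `G(X,Q) ≤ X^(1+ε)` for almost all `Q ≤ Y`, for `X^(κ+ε) ≤ Y ≤ X^(1-ε)` -/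
def AlmostAll (κ : ℝ) : Prop :=
  ∀ ε : ℝ, 0 < ε → ∀ η : ℝ, 0 < η → ∃ C : ℝ, ∀ (X : ℝ) (Y : ℕ), C ≤ X → X ^ (κ + ε) ≤ (Y : ℝ) →
    (Y : ℝ) ≤ X ^ (1 - ε) →
    (((Icc 1 Y).filter (fun Q : ℕ => X ^ (1 + ε) < GX X Q)).card : ℝ) ≤ η * Y

/-- `G(X,Q) ≤ X^(1+ε)` for one multiple `Q ≤ X^(κ+ε)` of every fixed `q` -/
def OneModulus (κ : ℝ) : Prop :=
  ∀ ε : ℝ, 0 < ε → ∀ q : ℕ, 1 ≤ q → ∃ C : ℝ, ∀ X : ℝ, C ≤ X →
    ∃ Q : ℕ, 1 ≤ Q ∧ q ∣ Q ∧ (Q : ℝ) ≤ X ^ (κ + ε) ∧ GX X Q ≤ X ^ (1 + ε)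

/-- no Dirichlet L-function vanishes at a point `s ≠ 1` with real part greater than `θ` -/
def ZF (θ : ℝ) : Prop :=
  ∀ (q : ℕ) [NeZero q] (χ : DirichletCharacter ℂ q) (s : ℂ), θ < s.re → s ≠ 1 →
    χ.LFunction s ≠ 0

/-! ## Primes twisted by a character -/

open scoped Classical in
/-- `∑_{n ≤ x} Λ(n) χ(n)`, minus `x` if `χ` is principal -/
noncomputable def EE {q : ℕ} (χ : DirichletCharacter ℂ q) (x : ℝ) : ℂ :=
  ∑ n ∈ Icc 1 ⌊x⌋₊, (Lam n : ℂ) * χ (n : ZMod q) - (if χ = 1 then (x : ℂ) else 0)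

open scoped Classical in
/-- `∑_{n ≤ X} Λ(n) χ(n) e(nβ)`, minus `∫_0^X e(tβ) dt` if `χ` is principal -/
noncomputable def EB {q : ℕ} (χ : DirichletCharacter ℂ q) (X β : ℝ) : ℂ :=
  ∑ n ∈ Icc 1 ⌊X⌋₊, (Lam n : ℂ) * χ (n : ZMod q) * e (n * β) - (if χ = 1 then Ic X β else 0)

/-- `EE`, cut off at `1` -/
noncomputable def E0 {q : ℕ} (χ : DirichletCharacter ℂ q) (x : ℝ) : ℂ :=
  if x < 1 then 0 else EE χ x

/-- the coefficients of `-L' M`: `∑_{d m = n, d ≤ z} μ(d) log m` -/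
noncomputable def cI (z n : ℕ) : ℝ :=
  ∑ d ∈ n.divisors.filter (fun d => d ≤ z), (μ d : ℝ) * Real.log ((n / d : ℕ) : ℝ)

open scoped Classical in
/-- the type I part (`0` for the principal character) -/
noncomputable def EI (z : ℕ) {q : ℕ} (χ : DirichletCharacter ℂ q) (x : ℝ) : ℂ :=
  if χ = 1 then 0 else ∑ n ∈ Icc 1 ⌊x⌋₊, (cI z n : ℂ) * χ (n : ZMod q)

/-- the type II part -/
noncomputable def E2 (z : ℕ) {q : ℕ} (χ : DirichletCharacter ℂ q) (x : ℝ) : ℂ := E0 χ x - EI z χ x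

/-- the mollifier -/
noncomputable def MM (z : ℕ) {q : ℕ} (χ : DirichletCharacter ℂ q) (s : ℂ) : ℂ :=
  ∑ n ∈ Icc 1 z, (μ n : ℂ) * χ (n : ZMod q) * (n : ℂ) ^ (-s)

open scoped Classical in
/-- `-(L'/L) (1 - L M)`; for the trivial character modulo `1`: `-ζ'/ζ(s) - s/(s-1)` -/
noncomputable def KK (z : ℕ) {q : ℕ} (χ : DirichletCharacter ℂ q) (s : ℂ) : ℂ :=
  if χ = 1 then -logDeriv riemannZeta₁ s - 1
  else -logDeriv (GA.LF χ) s * (1 - GA.LF χ s * MM z χ s)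

/-- the length of the mollifier for the moduli in `[R, 2R)`: `⌊R^(3/2)⌋` -/
def zR (R : ℕ) : ℕ := Nat.sqrt (R ^ 3)

/-- the coefficients of `L M`, with `L` cut off at `N` -/
noncomputable def cLM (z N n : ℕ) : ℝ :=
  ∑ d ∈ n.divisors.filter (fun d => d ≤ z ∧ n / d ≤ N), (μ d : ℝ)

/-! ## Functions with a Mellin transform on a vertical line -/

/-- `E` vanishes on `(-∞, 1)` and has the Mellin transform `H(s)/s`, where `H` is analytic and of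
polynomial growth on the strip `c ≤ Re s ≤ 2` -/
structure Rep (E : ℝ → ℂ) (H : ℂ → ℂ) (c : ℝ) : Prop where
  meas : Measurable E
  cont : ∀ x : ℝ, (∀ n : ℕ, x ≠ n) → ContinuousAt E x
  zero : ∀ x : ℝ, x < 1 → E x = 0
  bound : ∃ A : ℝ, ∀ x : ℝ, 1 ≤ x → ‖E x‖ ≤ A * x ^ (3 / 2 : ℝ)
  mellin : ∀ t : ℝ, ∫ x in Set.Ioi (1 : ℝ), E x * (x : ℂ) ^ (-(3 + t * I) : ℂ) =
    H (2 + t * I) / (2 + t * I)
  diff : ∃ c' : ℝ, c' < c ∧ DifferentiableOn ℂ H {s : ℂ | c' < s.re ∧ s.re < 3}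
  growth : ∃ A : ℝ, ∃ m : ℕ, ∀ s : ℂ, c ≤ s.re → s.re ≤ 2 → ‖H s‖ ≤ A * (1 + |s.im|) ^ m

/-- Gaussian smoothing on the multiplicative scale -/
noncomputable def sm (lam : ℝ) (E : ℝ → ℂ) (x : ℝ) : ℂ :=
  ((Real.sqrt (4 * Real.pi * lam))⁻¹ : ℝ) *
    ∫ v : ℝ, E (x * Real.exp (-v)) * (Real.exp (-(v ^ 2 / (4 * lam))) : ℂ)

/-- `e^(λ s²)`, `s = c + it` -/
noncomputable def gs (lam c t : ℝ) : ℂ := cexp (lam * ((c : ℂ) + t * I) ^ 2)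

/-- the derivative of `sm lam E`, as an integral over the line `Re s = c` -/
noncomputable def gd (lam : ℝ) (H : ℂ → ℂ) (c x : ℝ) : ℂ :=
  ((1 / (2 * Real.pi) : ℝ) : ℂ) *
    ∫ t : ℝ, H (c + t * I) * gs lam c t * (x : ℂ) ^ ((c : ℂ) - 1 + t * I)

/-- energy at low frequencies, for the derivative -/
noncomputable def Q1 (lam : ℝ) (h : ℝ → ℝ) : ℝ := ∫ t : ℝ, h t ^ 2 * Real.exp (-(2 * lam * t ^ 2))

/-- energy at low frequencies, pointwise -/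
noncomputable def Q2 (lam : ℝ) (h : ℝ → ℝ) : ℝ :=
  (∫ t : ℝ, h t / (1 + |t|) * Real.exp (-(lam * t ^ 2))) ^ 2

/-- energy at high frequencies -/
noncomputable def Q3 (lam : ℝ) (h : ℝ → ℝ) : ℝ :=
  ∫ t : ℝ, h t ^ 2 / (1 + t ^ 2) * (min 1 (lam * (1 + t ^ 2))) ^ 2

/-- `‖H(c + it)‖` -/
noncomputable def nH (H : ℂ → ℂ) (c t : ℝ) : ℝ := ‖H (c + t * I)‖

/-- the exponential sum of a function, by partial summation: `∫_0^X e(xβ) dE(x)` -/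
noncomputable def Bf (E : ℝ → ℂ) (X β : ℝ) : ℂ :=
  e (X * β) * E X - ((2 * Real.pi * β : ℝ) : ℂ) * I * ∫ x in (0 : ℝ)..X, E x * e (x * β)

/-- the sum over the primitive characters of modulus in `[R, 2R)` -/
noncomputable def SP (R : ℕ) (f : (r : ℕ) → DirichletCharacter ℂ r → ℝ) : ℝ :=
  ∑ r ∈ Ico R (2 * R), ∑ χ ∈ Pr r, f r χ

end Pool.Agent.XS
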